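import Mathlib
import Pool.Agent.H.MP_f83094_an.Witt

set_option autoImplicit false
set_option linter.style.haveILetI false

namespace Pool.Agent.Results.MP_e2f694_an.SameEnvelope

open scoped TensorProduct

/-- The submultiplicative seminorms on an algebra. -/
def SubMul (A : Type) [Ring A] [Algebra ℂ A] : Type :=
  {p : Seminorm ℂ A // ∀ a b, p (a * b) ≤ p a * p b}

/-- A copy of `A`, to carry the locally convex structure of all submultiplicative seminorms. -/
def AM (A : Type) : Type := A

noncomputable instance (A : Type) [Ring A] : Ring (AM A) := inferInstanceAs (Ring A)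

/-- The uniform structure defined by the family of all submultiplicative seminorms. -/
noncomputable instance unif (A : Type) [Ring A] [Algebra ℂ A] : UniformSpace (AM A) :=
  ⨅ p : SubMul A, p.1.toAddGroupSeminorm.toSeminormedAddCommGroup.toUniformSpace

instance (A : Type) [Ring A] [Algebra ℂ A] : IsUniformAddGroup (AM A) :=
  isUniformAddGroup_iInf (G := A) fun p : SubMul A =>
    @SeminormedAddCommGroup.to_isUniformAddGroup A p.1.toAddGroupSeminorm.toSeminormedAddCommGroup

instance (A : Type) [Ring A] [Algebra ℂ A] : IsTopologicalRing (AM A) where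
  toContinuousMul := by
    have := continuousMul_iInf (M := A) fun p : SubMul A =>
      letI : NonUnitalSeminormedRing A :=
        { p.1.toAddGroupSeminorm.toSeminormedAddCommGroup, (inferInstance : NonUnitalRing A) with
          norm_mul_le := p.2 }
      (inferInstance : ContinuousMul A)
    exact (UniformSpace.toTopologicalSpace_iInf (α := A)).symm ▸ this

/-- The Arens-Michael envelope: the completion for all submultiplicative seminorms
(a complete Hausdorff topological ring). -/
abbrev Env (A : Type) [Ring A] [Algebra ℂ A] : Type := UniformSpace.Completion (AM A)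

/-- The enveloping map `A → Env A`. -/
noncomputable def iota {A : Type} [Ring A] [Algebra ℂ A] (a : A) : Env A :=
  UniformSpace.Completion.coe' (α := AM A) a

/-- The continuous extension of a map to the envelopes. Applied to the comultiplication
`H → H ⊗ H`, the counit and the antipode it gives the structure maps of `Env H`. -/
noncomputable def ext {A B : Type} [Ring A] [Algebra ℂ A] [Ring B] [Algebra ℂ B] (φ : A → B) :
    Env A → Env B := UniformSpace.Completion.map (α := AM A) (β := AM B) φ

/-- Comultiplication of the envelope. -/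
noncomputable def comulE (H : Type) [Ring H] [HopfAlgebra ℂ H] : Env H → Env (H ⊗[ℂ] H) :=
  ext (Coalgebra.comul (R := ℂ) : H → H ⊗[ℂ] H)

/-- Counit of the envelope. -/
noncomputable def counitE (H : Type) [Ring H] [HopfAlgebra ℂ H] : Env H → Env ℂ :=
  ext (Coalgebra.counit (R := ℂ) : H → ℂ)

/-- Antipode of the envelope. -/
noncomputable def antipodeE (H : Type) [Ring H] [HopfAlgebra ℂ H] : Env H → Env H :=
  ext (HopfAlgebra.antipode ℂ : H → H)

/-- The extension of `f ⊗ f`. -/
noncomputable def tensorE {H₁ H₂ : Type} [Ring H₁] [Algebra ℂ H₁] [Ring H₂] [Algebra ℂ H₂]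
    (f : H₁ →ₐ[ℂ] H₂) : Env (H₁ ⊗[ℂ] H₁) → Env (H₂ ⊗[ℂ] H₂) :=
  ext (Algebra.TensorProduct.map f f)

/-- `e` is a topological ring isomorphism of the envelopes, extends the algebra map `f`, and
commutes with comultiplication, counit and antipode. -/
structure IsEnvIso {H₁ H₂ : Type} [Ring H₁] [HopfAlgebra ℂ H₁] [Ring H₂] [HopfAlgebra ℂ H₂]
    (f : H₁ →ₐ[ℂ] H₂) (e : Env H₁ ≃+* Env H₂) : Prop where
  cont : Continuous e
  cont_symm : Continuous e.symm
  extends_f : ∀ a : H₁, e (iota a) = iota (f a)
  comul : ∀ x, tensorE f (comulE H₁ x) = comulE H₂ (e x)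
  counit : ∀ x, counitE H₁ x = counitE H₂ (e x)
  antipode : ∀ x, e (antipodeE H₁ x) = antipodeE H₂ (e x)

open Pool.Agent.H.MP_f83094_an UniformSpace

section
variable {A B C : Type} [Ring A] [Algebra ℂ A] [Ring B] [Algebra ℂ B] [Ring C] [Algebra ℂ C]

lemma uc (φ : A →ₗ[ℂ] B) (h : (∀ a b, φ (a * b) = φ a * φ b) ∨ ∀ a b, φ (a * b) = φ b * φ a) :
    UniformContinuous (α := AM A) (β := AM B) φ := by
  refine uniformContinuous_iInf_rng.2 fun p => uniformContinuous_iInf_dom
    (i := ⟨p.1.comp φ, fun a b => ?_⟩) ?_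
  · rcases h with h | h <;> simp only [Seminorm.comp_apply, h]
    exacts [p.2 _ _, (p.2 _ _).trans_eq (mul_comm _ _)]
  · letI := p.1.toAddGroupSeminorm.toSeminormedAddCommGroup
    letI := (p.1.comp φ).toAddGroupSeminorm.toSeminormedAddCommGroup
    exact (AddMonoidHomClass.isometry_of_norm φ fun _ => rfl).uniformContinuous

lemma uca (φ : A →ₐ[ℂ] B) : UniformContinuous (α := AM A) (β := AM B) φ :=
  uc φ.toLinearMap (.inl (map_mul φ))

lemma ext_comp {ψ : B → C} {φ : A → B} (h1 : UniformContinuous (α := AM B) (β := AM C) ψ)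
    (h2 : UniformContinuous (α := AM A) (β := AM B) φ) (x : Env A) :
    ext ψ (ext φ x) = ext (ψ ∘ φ) x := congrFun (Completion.map_comp h1 h2) x

end

lemma insep (a : U) : iota (algebraMap ℂ U (cu a)) = iota a := by
  refine Inseparable.eq (Inseparable.map (X := AM U)
    ((inseparable_iff_ker_uniformity (α := AM U)).2 ?_) (Completion.continuous_coe (AM U)))
  refine (congrArg Filter.ker iInf_uniformity).ge (Filter.ker_iInf _ ▸ Set.mem_iInter.2 fun p => ?_)
  letI := p.1.toAddGroupSeminorm.toSeminormedAddCommGroup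
  exact (inseparable_iff_ker_uniformity (α := U)).1 (Metric.inseparable_iff.2
    ((dist_comm _ _).trans ((dist_eq_norm _ _).trans (p_ker p.1 p.2 a))))

theorem result : ∃ (H₁ : Type) (_ : Ring H₁) (_ : HopfAlgebra ℂ H₁)
    (H₂ : Type) (_ : Ring H₂) (_ : HopfAlgebra ℂ H₂),
    Algebra.FiniteType ℂ H₁ ∧ Algebra.FiniteType ℂ H₂ ∧ IsEmpty (H₁ ≃ₐ[ℂ] H₂) ∧
    ∃ (f : H₁ →ₐ[ℂ] H₂) (e : Env H₁ ≃+* Env H₂), IsEnvIso f e := by
  let f := Bialgebra.counitBialgHom ℂ U
  have uf := uca (f : U →ₐ[ℂ] ℂ)
  have ug := uca (Algebra.ofId ℂ U)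
  refine ⟨U, inferInstance, inferInstance, ℂ, inferInstance, inferInstance, fg, inferInstance,
    ⟨fun e => L_ne ?_⟩, f, RingEquiv.ofRingHom
      (Completion.mapRingHom (α := AM U) (β := AM ℂ) (f : U →+* ℂ) uf.continuous)
      (Completion.mapRingHom (α := AM ℂ) (β := AM U) (algebraMap ℂ U) ug.continuous) ?_ ?_,
    Completion.continuous_map, Completion.continuous_map, fun a => Completion.map_coe (α := AM U) uf a, fun x => ?_,
    fun x => ?_, fun x => ?_⟩
  · have := br 0 1
    rw [e.injective (a₁ := L 0 * L 1) (a₂ := L 1 * L 0) (by simp [mul_comm])] at this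
    simpa using this.symm
  · refine RingHom.ext fun x => (ext_comp uf ug x).trans ?_
    exact (congrArg (ext · x) (funext fun c => (f : U →ₐ[ℂ] ℂ).commutes c)).trans (congrFun Completion.map_id x)
  · refine RingHom.ext fun x => (ext_comp ug uf x).trans ?_
    induction x using Completion.induction_on with
    | hp => exact isClosed_eq Completion.continuous_map continuous_id
    | ih a => exact (Completion.map_coe (ug.comp uf) a).trans (insep a)
  · refine (ext_comp (uca _) (uca (Bialgebra.comulAlgHom ℂ U)) x).trans (.trans ?_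
      (ext_comp (uca (Bialgebra.comulAlgHom ℂ ℂ)) uf x).symm)
    exact congrArg (ext · x) (funext fun a => LinearMap.congr_fun (f.map_comp_comul) a)
  · exact (ext_comp (uca (Bialgebra.counitAlgHom ℂ ℂ)) uf x).symm
  · refine (ext_comp uf (uc S (.inr S_mul)) x).trans (.trans ?_ (ext_comp
      (uc (HopfAlgebra.antipode ℂ) (.inr HopfAlgebra.antipode_mul_antidistrib)) uf x).symm)
    exact congrArg (ext · x) (funext fun a => HopfAlgebra.counit_antipode a)

end Pool.Agent.Results.MP_e2f694_an.SameEnvelope
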